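import Pool.Agent.H419.TW.Stm
import Pool.Agent.H419.RM.SPS
import Pool.Graph.R_pool_sql_team_seeded_3997aac3.Q258.LQ.Split

/-! # TW-CYA: a prime number `q = 1` modulo `k` which is not below the primes of a sparse set
(helper972 for helper419) -/

set_option autoImplicit false

open NumberField
open Pool.Agent.H419.RM

namespace Pool.Agent.H419.TW.CYA

section rat

theorem int_of (x : 𝓞 ℚ) : ∃ n : ℤ, x = (n : 𝓞 ℚ) := by
  refine ⟨Rat.ringOfIntegersEquiv x, ?_⟩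
  have h := map_intCast Rat.ringOfIntegersEquiv.symm (Rat.ringOfIntegersEquiv x)
  rw [Int.cast_id, RingEquiv.symm_apply_apply] at h
  exact h

theorem mem_iff {p : Ideal (𝓞 ℚ)} (hp : p.IsPrime) {r : ℕ} (hr : r.Prime)
    (h : (r : 𝓞 ℚ) ∈ p) (n : ℤ) : (n : 𝓞 ℚ) ∈ p ↔ (r : ℤ) ∣ n := by
  constructor
  · intro hn
    by_contra hd
    have hc : IsCoprime (r : ℤ) n :=
      (Prime.coprime_iff_not_dvd (Nat.prime_iff_prime_int.1 hr)).2 hd
    obtain ⟨u, v, huv⟩ := hc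
    apply hp.ne_top
    rw [Ideal.eq_top_iff_one]
    have h1 : (1 : 𝓞 ℚ) = (u : 𝓞 ℚ) * (r : 𝓞 ℚ) + (v : 𝓞 ℚ) * (n : 𝓞 ℚ) := by
      have h2 := congrArg (Int.cast : ℤ → 𝓞 ℚ) huv
      push_cast at h2
      exact h2.symm
    rw [h1]
    exact p.add_mem (p.mul_mem_left _ h) (p.mul_mem_left _ hn)
  · rintro ⟨m, rfl⟩
    push_cast
    exact p.mul_mem_right _ h

theorem uniq {p p' : Ideal (𝓞 ℚ)} (hp : p.IsPrime) (hp' : p'.IsPrime) {r : ℕ} (hr : r.Prime)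
    (h : (r : 𝓞 ℚ) ∈ p) (h' : (r : 𝓞 ℚ) ∈ p') : p = p' := by
  ext x
  obtain ⟨n, rfl⟩ := int_of x
  rw [mem_iff hp hr h, mem_iff hp' hr h']

theorem eq_span {p : Ideal (𝓞 ℚ)} (hp : p.IsPrime) {r : ℕ} (hr : r.Prime)
    (h : (r : 𝓞 ℚ) ∈ p) : p = Ideal.span {(r : 𝓞 ℚ)} := by
  apply le_antisymm
  · intro x hx
    obtain ⟨n, rfl⟩ := int_of x
    rw [mem_iff hp hr h] at hx
    obtain ⟨m, rfl⟩ := hx
    rw [Ideal.mem_span_singleton]
    exact ⟨(m : 𝓞 ℚ), by push_cast; ring⟩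
  · rw [Ideal.span_singleton_le_iff_mem]
    exact h

theorem exists_prime_mem {R : Type*} [CommRing R] {p : Ideal R} (hp : p.IsPrime) (m : ℕ)
    (hm : m ≠ 0) (h : (m : R) ∈ p) : ∃ r : ℕ, r.Prime ∧ r ∣ m ∧ (r : R) ∈ p := by
  induction m using Nat.recOnMul with
  | zero => exact absurd rfl hm
  | one =>
    exfalso
    apply hp.ne_top
    rw [Ideal.eq_top_iff_one]
    simpa using h
  | prime r hr => exact ⟨r, hr, dvd_rfl, h⟩
  | mul a b iha ihb =>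
    rw [Nat.cast_mul] at h
    rcases hp.mem_or_mem h with h1 | h1
    · obtain ⟨r, h2, h3, h4⟩ := iha (fun h0 => hm (by rw [h0, zero_mul])) h1
      exact ⟨r, h2, h3.mul_right b, h4⟩
    · obtain ⟨r, h2, h3, h4⟩ := ihb (fun h0 => hm (by rw [h0, mul_zero])) h1
      exact ⟨r, h2, h3.mul_left a, h4⟩

theorem norm_prime {p : Ideal (𝓞 ℚ)} (hp : p.IsPrime) (hp0 : p ≠ ⊥) :
    (Ideal.absNorm p).Prime := by
  have h0 : Ideal.absNorm p ≠ 0 := by
    rw [Ne, Ideal.absNorm_eq_zero_iff]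
    exact hp0
  obtain ⟨r, hr, -, h2⟩ := exists_prime_mem hp _ h0 (Ideal.absNorm_mem p)
  have h3 := eq_span hp hr h2
  have h4 : Ideal.absNorm p = r := by
    rw [h3, Ideal.absNorm_span_natCast, NumberField.RingOfIntegers.rank, Module.finrank_self,
      pow_one]
  rw [h4]
  exact hr

end rat

section main

variable (K L : Type) [Field K] [NumberField K] [Field L] [NumberField L] [Algebra K L]
  [IsGalois ℚ L]

/-- primes above a totally split prime -/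
theorem norm_over (p : Ideal (𝓞 ℚ)) (hp : p.IsPrime) (hp0 : p ≠ ⊥)
    (hs : Set.ncard (p.primesOver (𝓞 L)) = Module.finrank ℚ L) (P : Ideal (𝓞 L))
    (hP : P.IsPrime) (hover : P.comap (algebraMap (𝓞 ℚ) (𝓞 L)) = p) :
    Ideal.absNorm P = Ideal.absNorm p := by
  have hn0 : 0 < Module.finrank ℚ L := Module.finrank_pos
  obtain ⟨e, f, he, hf, h3, h4, -⟩ := SPS.facts ℚ L p hp hp0 P hP hover
  rw [hs] at h3
  have h5 : e * f = 1 := Nat.eq_of_mul_eq_mul_left hn0 (by rw [h3, mul_one])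
  have hf1 : f = 1 := Nat.dvd_one.1 ⟨e, by rw [mul_comm]; exact h5.symm⟩
  rw [h4, hf1, pow_one]

theorem good (T : Set (Ideal (𝓞 K))) (hT : ∀ 𝔭 ∈ T, 𝔭.IsPrime ∧ 𝔭 ≠ ⊥) (k N : ℕ)
    (hk : 0 < k) (ζ : L) (hζ : IsPrimitiveRoot ζ k)
    (hcon : ∀ q : ℕ, q.Prime → N < q → q ≡ 1 [MOD k] → ∃ 𝔭 ∈ T, (q : 𝓞 K) ∈ 𝔭)
    (p : Ideal (𝓞 ℚ)) (hp : p.IsPrime) (hp0 : p ≠ ⊥)
    (hs : Set.ncard (p.primesOver (𝓞 L)) = Module.finrank ℚ L)
    (hN : max N (Units.torsionOrder L) < Ideal.absNorm p) :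
    ∃ 𝔭 ∈ T, Ideal.absNorm 𝔭 = Ideal.absNorm p := by
  have hq := norm_prime hp hp0
  set q := Ideal.absNorm p with hqdef
  have hqp : (q : 𝓞 ℚ) ∈ p := Ideal.absNorm_mem p
  have hover : ∀ P : Ideal (𝓞 L), P.IsPrime → (q : 𝓞 L) ∈ P → Ideal.absNorm P = q := by
    intro P hP hPq
    have hPp : P.comap (algebraMap (𝓞 ℚ) (𝓞 L)) = p := by
      have h1 : (P.comap (algebraMap (𝓞 ℚ) (𝓞 L))).IsPrime := Ideal.IsPrime.comap _
      refine uniq h1 hp hq ?_ hqp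
      rw [Ideal.mem_comap, map_natCast]
      exact hPq
    exact norm_over L p hp hp0 hs P hP hPp
  obtain ⟨P, hP, hlo⟩ := (inferInstance : Nonempty (p.primesOver (𝓞 L)))
  have hPq : (q : 𝓞 L) ∈ P := by
    have h1 : (q : 𝓞 ℚ) ∈ P.comap (algebraMap (𝓞 ℚ) (𝓞 L)) := by
      have h2 : p = P.comap (algebraMap (𝓞 ℚ) (𝓞 L)) := hlo.over
      rw [← h2]
      exact hqp
    rw [Ideal.mem_comap, map_natCast] at h1
    exact h1
  have hPn := hover P hP hPq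
  have hP0 : P ≠ ⊥ := by
    intro h0
    rw [h0, Ideal.absNorm_bot] at hPn
    exact hq.ne_zero hPn.symm
  have hmod : q ≡ 1 [MOD k] := by
    have hcop : (Ideal.absNorm P).Coprime (Units.torsionOrder L) := by
      rw [hPn, hq.coprime_iff_not_dvd]
      intro hd
      have h1 := Nat.le_of_dvd (Units.torsionOrder_pos L) hd
      have h2 := le_max_right N (Units.torsionOrder L)
      omega
    have h1 := NumberField.torsionOrder_dvd_absNorm_sub_one hP0 hP hcop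
    have : NeZero k := ⟨hk.ne'⟩
    have h2 := NumberField.Units.dvd_torsionOrder_of_isPrimitiveRoot hζ
    rw [hPn] at h1
    exact ((Nat.modEq_iff_dvd' hq.one_lt.le).2 (h2.trans h1)).symm
  obtain ⟨𝔭, h𝔭, hq𝔭⟩ := hcon q hq (lt_of_le_of_lt (le_max_left _ _) hN) hmod
  refine ⟨𝔭, h𝔭, ?_⟩
  obtain ⟨h𝔭p, h𝔭0⟩ := hT 𝔭 h𝔭
  have hmax : 𝔭.IsMaximal := h𝔭p.isMaximal h𝔭0
  obtain ⟨P', hP', hlo'⟩ := (inferInstance : Nonempty (𝔭.primesOver (𝓞 L)))
  have hP'q : (q : 𝓞 L) ∈ P' := by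
    have h1 : (q : 𝓞 K) ∈ P'.comap (algebraMap (𝓞 K) (𝓞 L)) := by
      have h2 : 𝔭 = P'.comap (algebraMap (𝓞 K) (𝓞 L)) := hlo'.over
      rw [← h2]
      exact hq𝔭
    rw [Ideal.mem_comap, map_natCast] at h1
    exact h1
  have h3 := hover P' hP' hP'q
  have h4 := Ideal.absNorm_pow_inertiaDeg 𝔭 P'
  rw [h3] at h4
  have h5 : Ideal.absNorm 𝔭 ≠ 1 := by
    rw [Ne, Ideal.absNorm_eq_one_iff]
    exact h𝔭p.ne_top
  have h6 : P'.inertiaDeg (𝓞 K) ≠ 0 := by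
    intro h0
    rw [h0, pow_zero] at h4
    exact hq.one_lt.ne h4
  have h7 : Ideal.absNorm 𝔭 ∣ q := by
    rw [← h4]
    exact dvd_pow_self _ h6
  exact ((Nat.dvd_prime hq).1 h7).resolve_left h5

theorem core (T : Set (Ideal (𝓞 K))) (hT : ∀ 𝔭 ∈ T, 𝔭.IsPrime ∧ 𝔭 ≠ ⊥)
    (hsum : Summable (fun 𝔭 : T => (1 : ℝ) / Ideal.absNorm 𝔭.1)) (k N : ℕ)
    (hk : 0 < k) (ζ : L) (hζ : IsPrimitiveRoot ζ k) :
    ∃ q : ℕ, q.Prime ∧ N < q ∧ q ≡ 1 [MOD k] ∧ ∀ 𝔭 ∈ T, (q : 𝓞 K) ∉ 𝔭 := by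
  classical
  by_contra hc
  have hcon : ∀ q : ℕ, q.Prime → N < q → q ≡ 1 [MOD k] → ∃ 𝔭 ∈ T, (q : 𝓞 K) ∈ 𝔭 := by
    intro q h1 h2 h3
    by_contra h4
    refine hc ⟨q, h1, h2, h3, fun 𝔭 h𝔭 h5 => h4 ⟨𝔭, h𝔭, h5⟩⟩
  refine Pool.Agent.TH857.J3095.splitSum ℚ L ?_
  set f : Ideal (𝓞 ℚ) → ℝ := fun p => (1 : ℝ) / Ideal.absNorm p with hf
  have hf0 : ∀ p, 0 ≤ f p := fun p => by simp only [hf]; positivity
  set B : Set (Ideal (𝓞 ℚ)) := {p | Ideal.absNorm p ≤ max N (Units.torsionOrder L)} with hB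
  have hBf : B.Finite := Ideal.finite_setOfPred_absNorm_le _
  set A : Set (Ideal (𝓞 ℚ)) := {p | (p.IsPrime ∧ p ≠ ⊥ ∧
    Set.ncard (p.primesOver (𝓞 L)) = Module.finrank ℚ L) ∧
      max N (Units.torsionOrder L) < Ideal.absNorm p} with hA
  have hex : ∀ p : A, ∃ 𝔭 : T, Ideal.absNorm 𝔭.1 = Ideal.absNorm p.1 := by
    rintro ⟨p, ⟨h1, h2, h3⟩, h4⟩
    obtain ⟨𝔭, h5, h6⟩ := good K L T hT k N hk ζ hζ hcon p h1 h2 h3 h4
    exact ⟨⟨𝔭, h5⟩, h6⟩
  choose Φ hΦ using hex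
  have hinj : Function.Injective Φ := by
    intro x y hxy
    have h1 : Ideal.absNorm x.1 = Ideal.absNorm y.1 := by rw [← hΦ x, ← hΦ y, hxy]
    have h2 := norm_prime x.2.1.1 x.2.1.2.1
    refine Subtype.ext (uniq x.2.1.1 y.2.1.1 h2 (Ideal.absNorm_mem x.1) ?_)
    rw [h1]
    exact Ideal.absNorm_mem y.1
  have hs1 : Summable (fun p : A => f p.1) := by
    refine (hsum.comp_injective hinj).congr fun p => ?_
    show (1 : ℝ) / Ideal.absNorm (Φ p).1 = 1 / Ideal.absNorm p.1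
    rw [hΦ]
  have hs2 := (summable_subtype_iff_indicator (f := f) (s := A)).1 hs1
  have hs3 : Summable (Set.indicator B f) :=
    summable_of_hasFiniteSupport (hBf.subset Set.support_indicator_subset)
  refine (summable_subtype_iff_indicator (f := f) (s := {p : Ideal (𝓞 ℚ) | p.IsPrime ∧ p ≠ ⊥ ∧
    Set.ncard (p.primesOver (𝓞 L)) = Module.finrank ℚ L})).2 ?_
  refine Summable.of_nonneg_of_le (fun p => Set.indicator_nonneg (fun p _ => hf0 p) p)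
    (fun p => ?_) (hs2.add hs3)
  have hA0 : 0 ≤ Set.indicator A f p := Set.indicator_nonneg (fun p _ => hf0 p) p
  have hB0 : 0 ≤ Set.indicator B f p := Set.indicator_nonneg (fun p _ => hf0 p) p
  by_cases hp : p ∈ {p : Ideal (𝓞 ℚ) | p.IsPrime ∧ p ≠ ⊥ ∧
    Set.ncard (p.primesOver (𝓞 L)) = Module.finrank ℚ L}
  · rw [Set.indicator_of_mem hp f]
    by_cases h2 : p ∈ B
    · rw [Set.indicator_of_mem h2 f]
      linarith
    · have hm : p ∈ A := ⟨hp, not_le.1 h2⟩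
      rw [Set.indicator_of_mem hm f]
      linarith
  · rw [Set.indicator_of_notMem hp f]
    exact add_nonneg hA0 hB0

end main

theorem exists_cyc (K : Type) [Field K] [NumberField K] (k : ℕ) (hk : 0 < k) :
    ∃ (F : Type) (_ : Field F) (_ : NumberField F) (_ : K →+* F) (ζ : F),
      IsPrimitiveRoot ζ k := by
  have : NeZero k := ⟨hk.ne'⟩
  have : NumberField (CyclotomicField k K) :=
    IsCyclotomicExtension.numberField {k} K (CyclotomicField k K)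
  exact ⟨CyclotomicField k K, inferInstance, inferInstance, algebraMap K (CyclotomicField k K),
    IsCyclotomicExtension.zeta k K (CyclotomicField k K),
    IsCyclotomicExtension.zeta_spec k K (CyclotomicField k K)⟩

theorem exists_gal (F : Type) [Field F] [NumberField F] :
    ∃ (L : Type) (_ : Field L) (_ : NumberField L) (_ : IsGalois ℚ L), Nonempty (F →+* L) := by
  let Ω := AlgebraicClosure F
  have h1 : Algebra.IsAlgebraic ℚ Ω := Algebra.IsAlgebraic.trans ℚ F Ω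
  have h2 : IsAlgClosure ℚ Ω := ⟨inferInstance, h1⟩
  have h3 : Normal ℚ Ω := IsAlgClosure.normal ℚ Ω
  let L := IntermediateField.normalClosure ℚ F Ω
  have h4 : FiniteDimensional ℚ L := inferInstance
  have h5 : Normal ℚ L := normalClosure.normal ℚ F Ω
  have h6 : NumberField L := NumberField.of_module_finite ℚ L
  have h7 : IsGalois ℚ L := { }
  exact ⟨L, inferInstance, h6, h7, ⟨algebraMap F L⟩⟩

theorem t_CYA : S_CYA := by
  intro K _ _ T hT hsum k N hk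
  obtain ⟨F, _, _, φ, ζ, hζ⟩ := exists_cyc K k hk
  obtain ⟨L, _, _, hg, ⟨ψ⟩⟩ := exists_gal F
  let _ : Algebra K L := (ψ.comp φ).toAlgebra
  exact core K L T hT hsum k N hk (ψ ζ) (hζ.map_of_injective ψ.injective)

end Pool.Agent.H419.TW.CYA
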