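import Pool.Agent.H419.TW.Stm
import Pool.Agent.H419.RM.TOW
import Pool.Graph.R_pool_sql_team_seeded_3997aac3.Q258.LQ.SolvT

set_option autoImplicit false

open NumberField Polynomial

namespace Pool.Agent.H419.TW.CYB

open Pool.Agent.H419.RM

/-- a prime which is not in the square of some prime ideal above it -/
theorem exists_prime (K : Type) [Field K] [NumberField K] : ∃ N : ℕ, ∀ q : ℕ, q.Prime → N < q →
    ∃ 𝔮 : Ideal (𝓞 K), 𝔮.IsPrime ∧ (q : 𝓞 K) ∈ 𝔮 ∧ (q : 𝓞 K) ∉ 𝔮 ^ 2 := by
  have hD : differentIdeal ℤ (𝓞 K) ≠ ⊥ := differentIdeal_ne_bot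
  refine ⟨Ideal.absNorm (differentIdeal ℤ (𝓞 K)), fun q hq hN => ?_⟩
  have hqZ : Prime (q : ℤ) := Nat.prime_iff_prime_int.1 hq
  have hne : Ideal.span {(q : ℤ)} ≠ ⊥ := by
    rw [Ne, Ideal.span_singleton_eq_bot]
    exact hqZ.ne_zero
  have hmax : (Ideal.span {(q : ℤ)}).IsMaximal :=
    ((Ideal.span_singleton_prime hqZ.ne_zero).2 hqZ).isMaximal hne
  obtain ⟨Q, hQ, hQP⟩ := Ideal.exists_maximal_ideal_liesOver_of_isIntegral (S := 𝓞 K)
    (Ideal.span {(q : ℤ)})
  have hcomap : Q.comap (algebraMap ℤ (𝓞 K)) = Ideal.span {(q : ℤ)} := hQP.over.symm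
  have hqQ : (q : 𝓞 K) ∈ Q := by
    have h1 : (q : ℤ) ∈ Q.comap (algebraMap ℤ (𝓞 K)) := by
      rw [hcomap]
      exact Ideal.mem_span_singleton_self _
    rw [Ideal.mem_comap] at h1
    simpa using h1
  refine ⟨Q, hQ.isPrime, hqQ, fun h2 => ?_⟩
  have h3 : Q ^ 2 ∣ (Ideal.span {(q : ℤ)}).map (algebraMap ℤ (𝓞 K)) := by
    rw [Ideal.dvd_iff_le, Ideal.map_span, Set.image_singleton, Ideal.span_singleton_le_iff_mem]
    simpa using h2
  have h4 := pow_sub_one_dvd_differentIdeal ℤ Q 2 hne h3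
  have h5 : Q ∣ differentIdeal ℤ (𝓞 K) := by simpa using h4
  have h6 : Ideal.absNorm Q ∣ Ideal.absNorm (differentIdeal ℤ (𝓞 K)) :=
    Ideal.absNorm_dvd_absNorm_of_le (Ideal.dvd_iff_le.1 h5)
  have h7 : q ∣ Ideal.absNorm Q := by
    have h8 : ((Ideal.absNorm Q : ℕ) : 𝓞 K) ∈ Q := Ideal.absNorm_mem Q
    have h9 : ((Ideal.absNorm Q : ℕ) : ℤ) ∈ Q.comap (algebraMap ℤ (𝓞 K)) := by
      rw [Ideal.mem_comap]
      simpa using h8
    rw [hcomap, Ideal.mem_span_singleton] at h9
    exact_mod_cast h9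
  have h10 : Ideal.absNorm (differentIdeal ℤ (𝓞 K)) ≠ 0 := by
    rw [Ne, Ideal.absNorm_eq_zero_iff]
    exact hD
  have h11 := Nat.le_of_dvd (Nat.pos_of_ne_zero h10) (h7.trans h6)
  omega

/-- the cyclotomic polynomial is irreducible over `K` for large primes -/
theorem irr (K : Type) [Field K] [NumberField K] : ∃ N : ℕ, ∀ q : ℕ, q.Prime → N < q →
    Irreducible (cyclotomic q K) := by
  obtain ⟨N, hN⟩ := exists_prime K
  refine ⟨N, fun q hq hNq => ?_⟩
  obtain ⟨Q, hQ, hqQ, hq2⟩ := hN q hq hNq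
  have : Fact q.Prime := ⟨hq⟩
  obtain ⟨f0, hf0⟩ : ∃ f0 : ℤ[X], f0 = (cyclotomic q ℤ).comp (X + 1) := ⟨_, rfl⟩
  have hE : f0.IsEisensteinAt (Ideal.span {(q : ℤ)}) := by
    rw [hf0]
    exact cyclotomic_comp_X_add_one_isEisensteinAt q
  have hmon0 : f0.Monic := by
    rw [hf0]
    have h1 : (X + 1 : ℤ[X]) = X + C 1 := by rw [C_1]
    rw [h1]
    exact (cyclotomic.monic q ℤ).comp (monic_X_add_C 1) (by rw [natDegree_X_add_C]; norm_num)
  have hdeg0 : f0.natDegree = q - 1 := by
    rw [hf0, natDegree_comp, natDegree_cyclotomic, Nat.totient_prime hq]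
    have h1 : (X + 1 : ℤ[X]) = X + C 1 := by rw [C_1]
    rw [h1, natDegree_X_add_C, mul_one]
  obtain ⟨f, hf⟩ : ∃ f : (𝓞 K)[X], f = f0.map (Int.castRingHom (𝓞 K)) := ⟨_, rfl⟩
  have hmon : f.Monic := by
    rw [hf]
    exact hmon0.map _
  have hdeg : f.natDegree = q - 1 := by
    rw [hf, hmon0.natDegree_map, hdeg0]
  have hEf : f.IsEisensteinAt Q := by
    refine ⟨?_, ?_, ?_⟩
    · rw [hmon.leadingCoeff]
      exact fun h => hQ.ne_top ((Ideal.eq_top_iff_one Q).2 h)
    · intro n hn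
      rw [hdeg, ← hdeg0] at hn
      have h1 := hE.mem hn
      rw [Ideal.mem_span_singleton] at h1
      obtain ⟨c, hc⟩ := h1
      rw [hf, coeff_map, hc]
      rw [map_mul]
      apply Ideal.mul_mem_right
      simpa using hqQ
    · have h1 : f.coeff 0 = (q : 𝓞 K) := by
        rw [hf, coeff_map, hf0, coeff_zero_eq_eval_zero, eval_comp]
        simp [eval_one_cyclotomic_prime]
      rw [h1]
      exact hq2
  have hirr : Irreducible f := hEf.irreducible hQ hmon.isPrimitive (by
    rw [hdeg]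
    have := hq.two_le
    omega)
  have h1 := (Monic.irreducible_iff_irreducible_map_fraction_map (K := K) hmon).1 hirr
  have h2 : f.map (algebraMap (𝓞 K) K) = algEquivAevalXAddC (1 : K) (cyclotomic q K) := by
    rw [hf, hf0, Polynomial.map_map, Polynomial.map_comp, map_cyclotomic]
    show _ = aeval (X + C (1 : K)) (cyclotomic q K)
    rw [← comp_eq_aeval]
    simp
  rw [h2] at h1
  exact (MulEquiv.irreducible_iff (algEquivAevalXAddC (1 : K)).toMulEquiv).1 h1

/-- the cyclotomic extension is unramified outside of `q` -/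
theorem unr (K L : Type) [Field K] [NumberField K] [Field L] [NumberField L] [Algebra K L]
    (q : ℕ) (hq : q.Prime) (ζ : L) (hζ : IsPrimitiveRoot ζ q)
    (hx : Algebra.adjoin K {ζ} = ⊤) (𝔭 : Ideal (𝓞 K)) (hp : 𝔭.IsPrime) (hp0 : 𝔭 ≠ ⊥)
    (hqp : (q : 𝓞 K) ∉ 𝔭) : Unr K L 𝔭 := by
  have : NeZero q := ⟨hq.ne_zero⟩
  have hKL : Function.Injective (algebraMap (𝓞 K) (𝓞 L)) :=
    RingOfIntegers.algebraMap.injective K L
  have hI0 : 𝔭.map (algebraMap (𝓞 K) (𝓞 L)) ≠ ⊥ := by
    rw [Ne, Ideal.map_eq_bot_iff_of_injective hKL]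
    exact hp0
  have hm : 𝔭.IsMaximal := hp.isMaximal hp0
  rw [Unr, TOW.red_iff _ hI0, squarefree_iff_no_irreducibles hI0]
  intro P hP hPP
  have hPp : P.IsPrime := Ideal.isPrime_of_prime hP.prime
  have h1 : P ^ 2 ∣ 𝔭.map (algebraMap (𝓞 K) (𝓞 L)) := by
    rw [pow_two]
    exact hPP
  have h2 := pow_sub_one_dvd_differentIdeal (𝓞 K) P 2 hp0 h1
  have h3 : P ∣ differentIdeal (𝓞 K) (𝓞 L) := by simpa using h2
  have hx' : Algebra.adjoin K {algebraMap (𝓞 L) L hζ.toInteger} = ⊤ := hx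
  have h4 : aeval hζ.toInteger (derivative (minpoly (𝓞 K) hζ.toInteger)) ∈
      differentIdeal (𝓞 K) (𝓞 L) := aeval_derivative_mem_differentIdeal (𝓞 K) K L hζ.toInteger hx'
  have h5 := Ideal.dvd_iff_le.1 h3 h4
  have hint : IsIntegral (𝓞 K) hζ.toInteger := Algebra.IsIntegral.isIntegral _
  have hpow : hζ.toInteger ^ q = 1 := hζ.toInteger_isPrimitiveRoot.pow_eq_one
  have h6 : minpoly (𝓞 K) hζ.toInteger ∣ (X ^ q - 1 : (𝓞 K)[X]) := by
    apply minpoly.isIntegrallyClosed_dvd hint
    simp [hpow]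
  obtain ⟨g, hg⟩ := h6
  have h7 : (q : 𝓞 L) * hζ.toInteger ^ (q - 1) =
      aeval hζ.toInteger (derivative (minpoly (𝓞 K) hζ.toInteger)) * aeval hζ.toInteger g := by
    have h8 := congrArg (fun r => aeval hζ.toInteger (derivative r)) hg
    simp only [derivative_mul, map_add, map_mul, minpoly.aeval, zero_mul, add_zero] at h8
    rw [← h8, derivative_sub, derivative_X_pow, derivative_one, sub_zero, map_mul, aeval_C,
      map_pow, aeval_X, map_natCast]
  have h8 : (q : 𝓞 L) * hζ.toInteger ^ (q - 1) ∈ P := by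
    rw [h7]
    exact Ideal.mul_mem_right _ _ h5
  have h9 : (q : 𝓞 L) ∈ P := by
    have h10 : (q : 𝓞 L) = (q : 𝓞 L) * hζ.toInteger ^ (q - 1) * hζ.toInteger := by
      rw [mul_assoc, ← pow_succ, Nat.sub_add_cancel hq.one_le, hpow, mul_one]
    rw [h10]
    exact Ideal.mul_mem_right _ _ h8
  have hPc : 𝔭 = P.comap (algebraMap (𝓞 K) (𝓞 L)) := by
    apply hm.eq_of_le
    · exact (Ideal.comap_isPrime (algebraMap (𝓞 K) (𝓞 L)) P).ne_top
    · rw [← Ideal.map_le_iff_le_comap, ← Ideal.dvd_iff_le]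
      exact (dvd_mul_right P P).trans hPP
  apply hqp
  rw [hPc, Ideal.mem_comap]
  simpa using h9

/-- a subextension of degree `k` of a cyclic extension -/
theorem exists_sub (K L : Type) [Field K] [Field L] [Algebra K L] [FiniteDimensional K L]
    [IsGalois K L] [IsCyclic Gal(L/K)] (k : ℕ) (hk : 0 < k) (hd : k ∣ Module.finrank K L) :
    ∃ M : IntermediateField K L, Module.finrank K M = k := by
  obtain ⟨g, hg⟩ := IsCyclic.exists_generator (α := Gal(L/K))
  have hcard : Nat.card Gal(L/K) = Module.finrank K L := IsGalois.card_aut_eq_finrank K L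
  have hord : orderOf g = Module.finrank K L := by
    rw [← hcard]
    exact orderOf_eq_card_of_forall_mem_zpowers hg
  obtain ⟨m, hm⟩ := hd
  have hpos : 0 < Module.finrank K L := Module.finrank_pos
  have hm0 : 0 < m := by
    rcases Nat.eq_zero_or_pos m with h | h
    · rw [h, mul_zero] at hm
      omega
    · exact h
  have h1 : orderOf (g ^ k) = m := by
    rw [orderOf_pow_of_dvd hk.ne' (by rw [hord]; exact ⟨m, hm⟩), hord, hm,
      Nat.mul_div_cancel_left _ hk]
  refine ⟨IntermediateField.fixedField (Subgroup.zpowers (g ^ k)), ?_⟩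
  have h2 := IntermediateField.finrank_fixedField_eq_card (Subgroup.zpowers (g ^ k))
  rw [Nat.card_zpowers, h1] at h2
  have h3 := Module.finrank_mul_finrank K
    (IntermediateField.fixedField (Subgroup.zpowers (g ^ k))) L
  rw [h2, hm] at h3
  exact Nat.eq_of_mul_eq_mul_right hm0 h3

/-- an abelian extension is a tower of Galois steps of prime degree -/
theorem tow (K Ω : Type) [Field K] [CharZero K] [Field Ω] [Algebra K Ω]
    (M : IntermediateField K Ω) (hfd : FiniteDimensional K M) (hab : IsAbelianGalois K M) :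
    Pool.Agent.Q258.LQ.PTow ({⊥} : Set (IntermediateField K Ω)) M := by
  have h : (⊥ : IntermediateField K Ω) ≤ M := bot_le
  have hab' : IsAbelianGalois K (IntermediateField.extendScalars h) := hab
  have hfd' : FiniteDimensional K (IntermediateField.extendScalars h) := hfd
  have hab2 : IsAbelianGalois (⊥ : IntermediateField K Ω) (IntermediateField.extendScalars h) :=
    IsAbelianGalois.tower_top K _ _
  have hfd2 : FiniteDimensional (⊥ : IntermediateField K Ω) (IntermediateField.extendScalars h) :=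
    Module.Finite.of_restrictScalars_finite K _ _
  exact Pool.Agent.Q258.LQ.solvTow K Ω {⊥} ⊥ M h (Pool.Agent.Q258.LQ.PTow.base rfl) hfd2
    hab2.toIsGalois (Group.isSolvable_of_comm fun x y => mul_comm' x y)

theorem t_CYB : S_CYB := by
  intro K Ω _ _ _ _ _ k hk
  obtain ⟨N, hN⟩ := irr K
  refine ⟨N, fun q hq hNq hqk => ?_⟩
  have hirr := hN q hq hNq
  have : IsAlgClosed Ω := IsAlgClosure.isAlgClosed K
  have : Algebra.IsAlgebraic K Ω := IsAlgClosure.isAlgebraic
  have : CharZero Ω := charZero_of_injective_algebraMap (algebraMap K Ω).injective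
  have : NeZero q := ⟨hq.ne_zero⟩
  have : Fact q.Prime := ⟨hq⟩
  have : NeZero (q : Ω) := ⟨Nat.cast_ne_zero.2 hq.ne_zero⟩
  obtain ⟨ζ, hζ⟩ := HasEnoughRootsOfUnity.exists_primitiveRoot Ω q
  have hcyc : IsCyclotomicExtension {q} K (IntermediateField.adjoin K {ζ}) :=
    hζ.intermediateField_adjoin_isCyclotomicExtension (K := K)
  obtain ⟨L, hL⟩ : ∃ L, L = IntermediateField.adjoin K {ζ} := ⟨_, rfl⟩
  rw [← hL] at hcyc
  have hnf : NumberField L := IsCyclotomicExtension.numberField {q} K L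
  have hfd : FiniteDimensional K L := IsCyclotomicExtension.finiteDimensional {q} K L
  have hab : IsAbelianGalois K L := IsCyclotomicExtension.isAbelianGalois {q} K L
  have hcy : IsCyclic Gal(L/K) :=
    isCyclic_of_injective (IsCyclotomicExtension.autEquivPow L hirr).toMonoidHom
      (IsCyclotomicExtension.autEquivPow L hirr).injective
  have hfr : Module.finrank K L = q - 1 := by
    rw [IsCyclotomicExtension.finrank L hirr, Nat.totient_prime hq]
  have hd : k ∣ Module.finrank K L := by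
    rw [hfr]
    exact (Nat.modEq_iff_dvd' hq.one_le).1 hqk.symm
  obtain ⟨M', hM'⟩ := exists_sub K L k hk hd
  refine ⟨IntermediateField.lift M', ⟨?_, ?_⟩, ?_⟩
  · apply tow
    · exact Module.Finite.equiv (IntermediateField.liftAlgEquiv M').toLinearEquiv
    · exact IsAbelianGalois.of_algHom (IntermediateField.liftAlgEquiv M').symm.toAlgHom
  · rw [← hM']
    exact (IntermediateField.liftAlgEquiv M').toLinearEquiv.finrank_eq.symm
  · intro 𝔭 hp hp0 hqp
    have hfdM : FiniteDimensional K (IntermediateField.lift M') :=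
      Module.Finite.equiv (IntermediateField.liftAlgEquiv M').toLinearEquiv
    have hnfM : NumberField (IntermediateField.lift M') := NumberField.of_module_finite K _
    let _ : Algebra (IntermediateField.lift M') L :=
      (IntermediateField.inclusion (IntermediateField.lift_le M')).toRingHom.toAlgebra
    have _ : IsScalarTower K (IntermediateField.lift M') L := IsScalarTower.of_algebraMap_eq' rfl
    refine ((TOW.t_TOW K (IntermediateField.lift M') L 𝔭 hp hp0).1 ?_).1
    have hz := IsCyclotomicExtension.zeta_spec q K L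
    exact unr K L q hq _ hz (IsCyclotomicExtension.adjoin_primitive_root_eq_top hz) 𝔭 hp hp0 hqp

end Pool.Agent.H419.TW.CYB
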