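import Pool.Agent.H419.AC.Fin
import Pool.Agent.H419.LT.TowFin

/-! # Towers with conditions at infinitely many primes -/

set_option autoImplicit false
set_option linter.unusedSectionVars false
set_option maxHeartbeats 1000000

open NumberField Filter Topology
open Pool.Agent.TH444.ML Pool.Agent.Q258.LQ Pool.Agent.H419.LT Pool.Agent.H419.RM
open Pool.Agent.H419.AC

namespace Pool.Agent.H419.TW

/-- The sum of `1 / N 𝔓` over the primes `𝔓` of `M` above `T`. -/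
def SumAbove (K M : Type) [Field K] [Field M] [NumberField M] [Algebra K M]
    (T : Set (Ideal (𝓞 K))) : Prop :=
  Summable (fun 𝔓 : {𝔓 : Ideal (𝓞 M) | 𝔓.IsPrime ∧ 𝔓.comap (algebraMap (𝓞 K) (𝓞 M)) ∈ T} =>
    (1 : ℝ) / Ideal.absNorm 𝔓.1)

section

variable {K Ω : Type} [Field K] [NumberField K] [Field Ω] [Algebra K Ω] [IsAlgClosed Ω]

theorem lim_F (M : IntermediateField K Ω) [FiniteDimensional K M] [NumberField M]
    (S : Set (Ideal (𝓞 K))) (hS : ∀ 𝔭 ∈ S, 𝔭.IsPrime ∧ 𝔭 ≠ ⊥) :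
    ∃ c : ℝ, Tendsto (fun Y : ℝ => (Set.ncard {L : IntermediateField K Ω | L ∈ AS M Y ∧
      ∀ 𝔭 ∈ S, Unr K L 𝔭} : ℝ) / Y) atTop (𝓝 c) ∧
      (c ≠ 0 ↔ (∀ 𝔭 ∈ S, Unr K M 𝔭) ∧ SumAbove K M S) := by
  have hnf : ∀ Y : ℝ, ∀ L ∈ QS M Ω Y, NumberField L := fun Y L h => h.2.1
  by_cases hM : ∀ 𝔭 ∈ S, Unr K M 𝔭
  · set W : Set (Ideal (𝓞 M)) := {𝔓 : Ideal (𝓞 M) | 𝔓.IsPrime ∧
      𝔓.comap (algebraMap (𝓞 K) (𝓞 M)) ∈ S} with hW
    have hWp : ∀ 𝔓 ∈ W, 𝔓.IsPrime ∧ 𝔓 ≠ ⊥ := by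
      rintro 𝔓 ⟨h1, h2⟩
      exact ⟨h1, ne_bot_of_comap (hS _ h2).2 rfl⟩
    have hset : ∀ Y : ℝ, Set.ncard {L : IntermediateField K Ω | L ∈ AS M Y ∧
        ∀ 𝔭 ∈ S, Unr K L 𝔭} = Set.ncard {L : IntermediateField M Ω | L ∈ QS M Ω Y ∧
        ∀ 𝔓 ∈ W, Unr M L 𝔓} := by
      intro Y
      rw [ncard_AS_P M (fun L => ∀ 𝔭 ∈ S, Unr K L 𝔭)]
      congr 1
      ext L
      constructor
      · rintro ⟨h1, h2⟩
        have := hnf Y L h1
        exact ⟨h1, ((unr_iff M L S hS).1 h2).2⟩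
      · rintro ⟨h1, h2⟩
        have := hnf Y L h1
        exact ⟨h1, (unr_iff M L S hS).2 ⟨hM, h2⟩⟩
    obtain ⟨c, hc, hc0⟩ := limw (M := M) (E := Ω) (RM.DIV.t_DIV RAMB.t_RAMB CUB.t_CUB)
      (UPB.t_UPB RAMA.t_RAMA) IDC.t_IDC W hWp
    refine ⟨c, hc.congr fun Y => ?_, ?_⟩
    · rw [hset]
    · constructor
      · intro h
        refine ⟨hM, ?_⟩
        by_contra h2
        apply h
        apply hc0
        exact h2
      · rintro ⟨-, h2⟩ rfl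
        exact posw W hWp h2 hc
  · refine ⟨0, ?_, ?_⟩
    · have : ∀ Y : ℝ, Set.ncard {L : IntermediateField K Ω | L ∈ AS M Y ∧
          ∀ 𝔭 ∈ S, Unr K L 𝔭} = 0 := by
        intro Y
        rw [ncard_AS_P M (fun L => ∀ 𝔭 ∈ S, Unr K L 𝔭)]
        have h0 : {L : IntermediateField M Ω | L ∈ QS M Ω Y ∧
            ∀ 𝔭 ∈ S, Unr K (IntermediateField.restrictScalars K L) 𝔭} = ∅ := by
          rw [Set.eq_empty_iff_forall_notMem]
          rintro L ⟨h1, h2⟩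
          have := hnf Y L h1
          exact hM ((unr_iff M L S hS).1 h2).1
        rw [h0, Set.ncard_empty]
      simp only [this, Nat.cast_zero, zero_div]
      exact tendsto_const_nhds
    · constructor
      · intro h
        exact absurd rfl h
      · rintro ⟨h, -⟩
        exact absurd h hM

end

section

variable {K Ω : Type} [Field K] [NumberField K] [Field Ω] [Algebra K Ω] [IsAlgClosure K Ω]

/-- towers unramified at the primes of a set -/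
theorem tow1 (𝓑 : Set (IntermediateField K Ω))
    (hB : ∀ m : ℕ, 0 < m → ∃ θ : ℝ, θ < 3 / 2 ∧ ∃ C : ℝ, ∀ X : ℝ, 1 ≤ X →
      (Set.ncard {L : IntermediateField K Ω | L ∈ 𝓑 ∧ Module.finrank K L = m ∧ dsc L ≤ X} : ℝ) ≤
        C * X ^ θ) (k : ℕ) (hk : 0 < k)
    (S : Set (Ideal (𝓞 K))) (hS : ∀ 𝔭 ∈ S, 𝔭.IsPrime ∧ 𝔭 ≠ ⊥) :
    ∃ c : ℝ, 0 ≤ c ∧ Tendsto (fun X : ℝ =>
      (Set.ncard {L : IntermediateField K Ω | (L ∈ SAb 𝓑 ∧ ∀ 𝔭 ∈ S, Unr K L 𝔭) ∧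
        Module.finrank K L = 2 * k ∧ dsc L ≤ X} : ℝ) / X) atTop (𝓝 c) ∧
      (0 < c ↔ ∃ M : IntermediateField K Ω, STow 𝓑 M ∧ Module.finrank K M = k ∧
        (∀ 𝔭 ∈ S, Unr K M 𝔭) ∧ ∃ h : NumberField M, @SumAbove K M _ _ h _ S) := by
  have hac : IsAlgClosed Ω := IsAlgClosure.isAlgClosed K
  obtain ⟨s, hs1, hs2, hs⟩ := choose_s 𝓑 (2 * k) hB
  have hfd : ∀ F ∈ PT 𝓑 k, FiniteDimensional K F := fun F hF => fd_of_finrank hk hF.2
  obtain ⟨c, hc, hlim, hiff⟩ := main_evenP STEPP.t_STEPP (fun L => ∀ 𝔭 ∈ S, Unr K L 𝔭) s hs1 hs2 𝓑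
    k hk hs (fun F hF => by
      have := hfd F hF
      have hnf : NumberField F := nf_of_fd F
      obtain ⟨c, h1, -⟩ := lim_F F S hS
      exact ⟨c, h1⟩)
  refine ⟨c, hc, ?_, hiff.trans ?_⟩
  · have hset : ∀ X : ℝ, {L : IntermediateField K Ω | (L ∈ SAb 𝓑 ∧ ∀ 𝔭 ∈ S, Unr K L 𝔭) ∧
        Module.finrank K L = 2 * k ∧ dsc L ≤ X} =
        {L : IntermediateField K Ω | (L ∈ PP 𝓑 (2 * k) ∧ dsc L ≤ X) ∧
          ∀ 𝔭 ∈ S, Unr K L 𝔭} := by
      intro X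
      ext L
      simp only [Set.mem_ofPred_eq, sAb_iff, PP]
      tauto
    simp only [hset]
    exact hlim
  · constructor
    · rintro ⟨F, hF, hne⟩
      have := hfd F hF
      have hnf : NumberField F := nf_of_fd F
      obtain ⟨c', h1, h2⟩ := lim_F F S hS
      have h3 : c' ≠ 0 := by
        rintro rfl
        exact hne h1
      exact ⟨F, (sTow_iff 𝓑 F).2 hF.1, hF.2, (h2.1 h3).1, hnf, (h2.1 h3).2⟩
    · rintro ⟨M, h1, h2, h3, hnf, h4⟩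
      have hM : M ∈ PT 𝓑 k := ⟨(sTow_iff 𝓑 M).1 h1, h2⟩
      have := hfd M hM
      obtain ⟨c', h5, h6⟩ := lim_F M S hS
      refine ⟨M, hM, fun h7 => ?_⟩
      have h8 : c' ≠ 0 := h6.2 ⟨h3, h4⟩
      exact h8 (tendsto_nhds_unique h5 h7)

/-- towers with acceptable conditions at all primes -/
theorem tow2 (𝓑 : Set (IntermediateField K Ω))
    (hB : ∀ m : ℕ, 0 < m → ∃ θ : ℝ, θ < 3 / 2 ∧ ∃ C : ℝ, ∀ X : ℝ, 1 ≤ X →
      (Set.ncard {L : IntermediateField K Ω | L ∈ 𝓑 ∧ Module.finrank K L = m ∧ dsc L ≤ X} : ℝ) ≤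
        C * X ^ θ) (k : ℕ) (hk : 0 < k) (P : Sys K) (hP : Inv P) (hacc : Accept P) :
    ∃ c : ℝ, 0 ≤ c ∧ Tendsto (fun X : ℝ =>
      (Set.ncard {L : IntermediateField K Ω | (L ∈ SAb 𝓑 ∧ All P L) ∧
        Module.finrank K L = 2 * k ∧ dsc L ≤ X} : ℝ) / X) atTop (𝓝 c) ∧
      (0 < c ↔ ∃ M : IntermediateField K Ω, STow 𝓑 M ∧ Module.finrank K M = k ∧
        ((∃ L : IntermediateField K Ω, M ≤ L ∧ Module.finrank K L = 2 * k ∧ All P L) ∨
          AllSplit P M)) := by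
  have hac : IsAlgClosed Ω := IsAlgClosure.isAlgClosed K
  obtain ⟨s, hs1, hs2, hs⟩ := choose_s 𝓑 (2 * k) hB
  have hfd : ∀ F ∈ PT 𝓑 k, FiniteDimensional K F := fun F hF => fd_of_finrank hk hF.2
  obtain ⟨c, hc, hlim, hiff⟩ := main_evenP STEPP.t_STEPP (fun L => All P L) s hs1 hs2 𝓑
    k hk hs (fun F hF => by
      have := hfd F hF
      have hnf : NumberField F := nf_of_fd F
      exact limAS F hP hacc)
  refine ⟨c, hc, ?_, hiff.trans ?_⟩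
  · have hset : ∀ X : ℝ, {L : IntermediateField K Ω | (L ∈ SAb 𝓑 ∧ All P L) ∧
        Module.finrank K L = 2 * k ∧ dsc L ≤ X} =
        {L : IntermediateField K Ω | (L ∈ PP 𝓑 (2 * k) ∧ dsc L ≤ X) ∧ All P L} := by
      intro X
      ext L
      simp only [Set.mem_ofPred_eq, sAb_iff, PP]
      tauto
    simp only [hset]
    exact hlim
  · constructor
    · rintro ⟨F, hF, hne⟩
      refine ⟨F, (sTow_iff 𝓑 F).2 hF.1, hF.2, Or.inl ?_⟩
      by_contra hcon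
      apply hne
      have : ∀ Y : ℝ, {L : IntermediateField K Ω | L ∈ AS F Y ∧ All P L} = ∅ := by
        intro Y
        rw [Set.eq_empty_iff_forall_notMem]
        rintro L ⟨hL, hT⟩
        refine hcon ⟨L, hL.1, ?_, hT⟩
        rw [hL.2.1, hF.2]
      simp only [this, Set.ncard_empty, Nat.cast_zero, zero_div]
      exact tendsto_const_nhds
    · rintro ⟨M, h1, h2, h3⟩
      have hM : M ∈ PT 𝓑 k := ⟨(sTow_iff 𝓑 M).1 h1, h2⟩
      have := hfd M hM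
      have hnf : NumberField M := nf_of_fd M
      refine ⟨M, hM, posAS M hP hacc ?_⟩
      rcases h3 with ⟨L, h4, h5, h6⟩ | h4
      · exact Or.inl ⟨L, h4, by rw [h5, h2], h6⟩
      · exact Or.inr h4

end

end Pool.Agent.H419.TW
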