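import Pool.Agent.H419.RM.Stm
import Pool.Agent.H419.LT.Stm3

/-! # Cyclic extensions which are unramified at the primes of a sparse set: statements -/

set_option autoImplicit false

open NumberField
open Pool.Agent.H419.RM

namespace Pool.Agent.H419.TW

/-- CYA: a prime number `q ≡ 1` modulo `k` which is not contained in the primes of a sparse set. -/
def S_CYA : Prop := ∀ (K : Type) [Field K] [NumberField K] (T : Set (Ideal (𝓞 K))),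
  (∀ 𝔭 ∈ T, 𝔭.IsPrime ∧ 𝔭 ≠ ⊥) → Summable (fun 𝔭 : T => (1 : ℝ) / Ideal.absNorm 𝔭.1) →
  ∀ k N : ℕ, 0 < k → ∃ q : ℕ, q.Prime ∧ N < q ∧ q ≡ 1 [MOD k] ∧ ∀ 𝔭 ∈ T, (q : 𝓞 K) ∉ 𝔭

/-- CYB: a cyclic extension of degree `k` which is unramified outside of `q`. -/
def S_CYB : Prop := ∀ (K Ω : Type) [Field K] [NumberField K] [Field Ω] [Algebra K Ω]
  [IsAlgClosure K Ω] (k : ℕ), 0 < k → ∃ N : ℕ, ∀ q : ℕ, q.Prime → N < q → q ≡ 1 [MOD k] →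
  ∃ M : IntermediateField K Ω, M ∈ Pool.Agent.Q258.LQ.PT ({⊥} : Set (IntermediateField K Ω)) k ∧
    ∀ 𝔭 : Ideal (𝓞 K), 𝔭.IsPrime → 𝔭 ≠ ⊥ → (q : 𝓞 K) ∉ 𝔭 → Unr K M 𝔭

end Pool.Agent.H419.TW
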