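import Pool.Agent.H419.TW.Fin
import Pool.Agent.H419.TW.CYA
import Pool.Agent.H419.TW.CYB
import Pool.Agent.H419.AC.BAU

/-! # Towers which are unramified at the primes of a set: sums over primes -/

set_option autoImplicit false
set_option linter.unusedSectionVars false
set_option linter.deprecated false

open NumberField Filter Topology
open Pool.Agent.TH444.ML Pool.Agent.H419.LT Pool.Agent.H419.RM Pool.Agent.H419.AC

namespace Pool.Agent.H419.TW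

section

variable (K M : Type) [Field K] [NumberField K] [Field M] [NumberField M] [Algebra K M]

theorem ncard_over (𝔭 : Ideal (𝓞 K)) (hp : 𝔭.IsPrime) (hp0 : 𝔭 ≠ ⊥) :
    (𝔭.primesOver (𝓞 M)).ncard ≤ Module.finrank K M := by
  have hmax : 𝔭.IsMaximal := hp.isMaximal hp0
  have hinj : Function.Injective (algebraMap (𝓞 K) (𝓞 M)) :=
    FaithfulSMul.algebraMap_injective (𝓞 K) (𝓞 M)
  have hz : NoZeroSMulDivisors (𝓞 K) (𝓞 M) := by
    constructor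
    intro c x hcx
    rw [Algebra.smul_def, mul_eq_zero, map_eq_zero_iff _ hinj] at hcx
    exact hcx
  have h := Ideal.card_primesOverFinset_le_finrank (R := 𝓞 K) (S := 𝓞 M) (K := K) (L := M)
    (p := 𝔭) hp0
  rw [← IsDedekindDomain.coe_primesOverFinset hp0 (𝓞 M), Set.ncard_coe_finset]
  exact h

theorem norm_le (𝔭 : Ideal (𝓞 K)) (hp : 𝔭.IsPrime) (hp0 : 𝔭 ≠ ⊥) (𝔓 : Ideal (𝓞 M))
    (hP : 𝔓.IsPrime) (hover : 𝔓.comap (algebraMap (𝓞 K) (𝓞 M)) = 𝔭) :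
    1 ≤ Ideal.absNorm 𝔭 ∧ Ideal.absNorm 𝔭 ≤ Ideal.absNorm 𝔓 := by
  have hlo : 𝔓.LiesOver 𝔭 := ⟨hover.symm⟩
  have hmax : 𝔭.IsMaximal := hp.isMaximal hp0
  have hN1 : 1 ≤ Ideal.absNorm 𝔭 := by
    rw [Nat.one_le_iff_ne_zero, Ne, Ideal.absNorm_eq_zero_iff]
    exact hp0
  refine ⟨hN1, ?_⟩
  rw [← Ideal.absNorm_pow_inertiaDeg 𝔭 𝔓]
  exact Nat.le_self_pow (Ideal.inertiaDeg_pos 𝔓 (𝓞 K)).ne' _

theorem sumAbove_of (T : Set (Ideal (𝓞 K))) (hT : ∀ 𝔭 ∈ T, 𝔭.IsPrime ∧ 𝔭 ≠ ⊥)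
    (hs : Summable (fun 𝔭 : T => (1 : ℝ) / Ideal.absNorm 𝔭.1)) : SumAbove K M T := by
  classical
  let PM : Set (Ideal (𝓞 M)) :=
    {𝔓 : Ideal (𝓞 M) | 𝔓.IsPrime ∧ 𝔓.comap (algebraMap (𝓞 K) (𝓞 M)) ∈ T}
  let π : PM → T := fun 𝔓 => ⟨𝔓.1.comap (algebraMap (𝓞 K) (𝓞 M)), 𝔓.2.2⟩
  have hfib : ∀ b : T, {a : PM | π a = b}.Finite ∧
      {a : PM | π a = b}.ncard ≤ Module.finrank K M := by
    intro b
    obtain ⟨hbp, hb0⟩ := hT b.1 b.2
    have hsub : Subtype.val '' {a : PM | π a = b} ⊆ b.1.primesOver (𝓞 M) := by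
      rintro _ ⟨a, ha, rfl⟩
      have ha' : π a = b := ha
      exact ⟨a.2.1, ⟨(congrArg Subtype.val ha').symm⟩⟩
    have hmax : b.1.IsMaximal := hbp.isMaximal hb0
    have hfin : (b.1.primesOver (𝓞 M)).Finite := IsDedekindDomain.primesOver_finite b.1 (𝓞 M)
    have hfin' : (Subtype.val '' {a : PM | π a = b}).Finite := hfin.subset hsub
    refine ⟨hfin'.of_finite_image Subtype.val_injective.injOn, ?_⟩
    rw [← Set.ncard_image_of_injective _ Subtype.val_injective]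
    exact (Set.ncard_le_ncard hsub hfin).trans (ncard_over K M b.1 hbp hb0)
  have s1 := SPS.summable_fiber π _ (fun b => (hfib b).1) (fun b => (hfib b).2)
    (fun 𝔭 : T => (1 : ℝ) / Ideal.absNorm 𝔭.1) (fun _ => by positivity) hs
  refine Summable.of_nonneg_of_le (fun 𝔓 => by positivity) ?_ s1
  intro 𝔓
  obtain ⟨hpp, hp0⟩ := hT _ 𝔓.2.2
  obtain ⟨h1, h2⟩ := norm_le K M _ hpp hp0 𝔓.1 𝔓.2.1 rfl
  exact one_div_le_one_div_of_le (by exact_mod_cast h1) (by exact_mod_cast h2)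

/-- the primes which are unramified and not totally split -/
def NS : Set (Ideal (𝓞 K)) :=
  {𝔭 | (𝔭.IsPrime ∧ 𝔭 ≠ ⊥) ∧ Unr K M 𝔭 ∧ ¬ Spl K M 𝔭}

theorem spl_self (𝔭 : Ideal (𝓞 K)) (hp : 𝔭.IsPrime) : Spl K K 𝔭 := by
  unfold Spl
  rw [Module.finrank_self]
  rw [Set.ncard_eq_one]
  refine ⟨𝔭, ?_⟩
  ext 𝔮
  constructor
  · rintro ⟨h1, h2⟩
    have h3 := h2.over
    rw [Set.mem_singleton_iff, h3]
    ext x
    rw [Ideal.mem_comap]
    rfl
  · intro h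
    rw [Set.mem_singleton_iff] at h
    rw [h]
    refine ⟨hp, ⟨?_⟩⟩
    ext x
    rw [Ideal.mem_comap]
    rfl

theorem ns_div [IsGalois K M] (h : 2 ≤ Module.finrank K M) :
    ¬ Summable (fun 𝔭 : NS K M => (1 : ℝ) / Ideal.absNorm 𝔭.1) := by
  intro hs
  refine BAU.core K K M M (fun σ _ h2 => ?_) (by rw [Module.finrank_self]; omega) ?_
  · ext x
    exact h2 x
  · have e : {𝔭 : Ideal (𝓞 K) | 𝔭.IsPrime ∧ 𝔭 ≠ ⊥ ∧ Spl K K 𝔭 ∧ Unr K M 𝔭 ∧ ¬ Spl K M 𝔭} =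
        NS K M := by
      ext 𝔭
      constructor
      · rintro ⟨h1, h2, -, h3, h4⟩
        exact ⟨⟨h1, h2⟩, h3, h4⟩
      · rintro ⟨⟨h1, h2⟩, h3, h4⟩
        exact ⟨h1, h2, spl_self K 𝔭 h1, h3, h4⟩
    rw [e]
    exact hs

theorem ns_sum [IsGalois K M] : SumAbove K M (NS K M) := by
  refine (SPS.t_SPS K M (NS K M) fun 𝔭 h => h.1).2 ?_
  have : IsEmpty {𝔭 : Ideal (𝓞 K) // 𝔭 ∈ NS K M ∧
      Set.ncard (𝔭.primesOver (𝓞 M)) = Module.finrank K M} :=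
    ⟨fun 𝔭 => 𝔭.2.1.2.2 𝔭.2.2⟩
  exact summable_empty

end

/-- cyclic extensions -/
theorem exists_galois (K Ω : Type) [Field K] [NumberField K] [Field Ω] [Algebra K Ω]
    [IsAlgClosure K Ω] (k : ℕ) (hk : 0 < k) : ∃ M : IntermediateField K Ω,
      FiniteDimensional K M ∧ IsAbelianGalois K M ∧ Module.finrank K M = k ∧
      Pool.Agent.Q258.LQ.PTow ({⊥} : Set (IntermediateField K Ω)) M := by
  obtain ⟨N, hN⟩ := CYB.irr K
  obtain ⟨q, hq, hNq, hqk⟩ := Nat.exists_prime_gt_modEq_one N hk.ne'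
  have hirr := hN q hq hNq
  have : IsAlgClosed Ω := IsAlgClosure.isAlgClosed K
  have : Algebra.IsAlgebraic K Ω := IsAlgClosure.isAlgebraic
  have : CharZero Ω := charZero_of_injective_algebraMap (algebraMap K Ω).injective
  have : NeZero q := ⟨hq.ne_zero⟩
  have : Fact q.Prime := ⟨hq⟩
  have : NeZero (q : Ω) := ⟨Nat.cast_ne_zero.2 hq.ne_zero⟩
  obtain ⟨ζ, hζ⟩ := HasEnoughRootsOfUnity.exists_primitiveRoot Ω q
  have hcyc : IsCyclotomicExtension {q} K (IntermediateField.adjoin K {ζ}) :=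
    hζ.intermediateField_adjoin_isCyclotomicExtension (K := K)
  obtain ⟨L, hL⟩ : ∃ L, L = IntermediateField.adjoin K {ζ} := ⟨_, rfl⟩
  rw [← hL] at hcyc
  have hnf : NumberField L := IsCyclotomicExtension.numberField {q} K L
  have hfd : FiniteDimensional K L := IsCyclotomicExtension.finiteDimensional {q} K L
  have hab : IsAbelianGalois K L := IsCyclotomicExtension.isAbelianGalois {q} K L
  have hcy : IsCyclic Gal(L/K) :=
    isCyclic_of_injective (IsCyclotomicExtension.autEquivPow L hirr).toMonoidHom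
      (IsCyclotomicExtension.autEquivPow L hirr).injective
  have hfr : Module.finrank K L = q - 1 := by
    rw [IsCyclotomicExtension.finrank L hirr, Nat.totient_prime hq]
  have hd : k ∣ Module.finrank K L := by
    rw [hfr]
    exact (Nat.modEq_iff_dvd' hq.one_le).1 hqk.symm
  obtain ⟨M', hM'⟩ := CYB.exists_sub K L k hk hd
  have h1 : FiniteDimensional K (IntermediateField.lift M') :=
    Module.Finite.equiv (IntermediateField.liftAlgEquiv M').toLinearEquiv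
  have h2 : IsAbelianGalois K (IntermediateField.lift M') :=
    IsAbelianGalois.of_algHom (IntermediateField.liftAlgEquiv M').symm.toAlgHom
  refine ⟨IntermediateField.lift M', h1, h2, ?_, ?_⟩
  · rw [← hM']
    exact (IntermediateField.liftAlgEquiv M').toLinearEquiv.finrank_eq.symm
  · exact CYB.tow K Ω _ h1 h2

/-- a tower of degree `k` which is unramified at the primes of a sparse set -/
theorem exists_unr (K Ω : Type) [Field K] [NumberField K] [Field Ω] [Algebra K Ω]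
    [IsAlgClosure K Ω] (T : Set (Ideal (𝓞 K))) (hT : ∀ 𝔭 ∈ T, 𝔭.IsPrime ∧ 𝔭 ≠ ⊥)
    (hs : Summable (fun 𝔭 : T => (1 : ℝ) / Ideal.absNorm 𝔭.1)) (k : ℕ) (hk : 0 < k) :
    ∃ M : IntermediateField K Ω, Pool.Agent.Q258.LQ.PTow ({⊥} : Set (IntermediateField K Ω)) M ∧
      Module.finrank K M = k ∧ ∀ 𝔭 ∈ T, Unr K M 𝔭 := by
  obtain ⟨N, hN⟩ := CYB.t_CYB K Ω k hk
  obtain ⟨q, hq, hNq, hqk, hqT⟩ := CYA.t_CYA K T hT hs k N hk
  obtain ⟨M, ⟨h1, h2⟩, h3⟩ := hN q hq hNq hqk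
  exact ⟨M, h1, h2, fun 𝔭 h𝔭 => h3 𝔭 (hT 𝔭 h𝔭).1 (hT 𝔭 h𝔭).2 (hqT 𝔭 h𝔭)⟩

end Pool.Agent.H419.TW
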